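import Pool.Agent.H71.CR.Stmt2

/-! Module GMB: from the Borel form to directions. -/

set_option autoImplicit false

open Set Pool.Agent.TK Pool.Agent.H71.VK

namespace Pool.Agent.CR

private lemma h76_ev_list {V : Ultrafilter ℕ} (q : ℕ → ℕ → Prop) (D : List ℕ)
    (h : ∀ y ∈ D, ∀ᶠ M in (V : Filter ℕ), q M y) : ∀ᶠ M in (V : Filter ℕ), ∀ y ∈ D, q M y := by
  induction D with
  | nil => exact Filter.Eventually.of_forall fun M y hy => absurd hy (by simp)
  | cons a D ih =>
    filter_upwards [h a List.mem_cons_self, ih fun y hy => h y (List.mem_cons_of_mem _ hy)]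
      with M h1 h2 y hy
    rcases List.mem_cons.1 hy with rfl | hy
    · exact h1
    · exact h2 y hy

open Classical in
/-- GMB: from the Borel form to directions. -/
theorem pf_GMB (hFCT : T_FCT) (hFIA : T_FIA) : T_GMB := by
  intro n c hlb m hQ U hU f hf1 hf2
  obtain ⟨hcomp, hint, hfin⟩ := hFIA n c hlb
  obtain ⟨N, L, hL, hK⟩ := hQ f hf1 hf2
  choose K hK1 hK2 hK3 using hK
  have hlen : ∀ M, (K M).length = L.length := by
    intro M
    rw [← hK1 M, List.length_map]
  let V : Ultrafilter ℕ := Filter.hyperfilter ℕ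
  have hV : ∀ i : ℕ, ∀ᶠ M in (V : Filter ℕ), i < M := by
    intro i
    have h1 : {M : ℕ | ¬ i < M}.Finite := (Set.finite_le_nat i).subset fun M hM => not_lt.1 hM
    have h2 := Filter.compl_mem_hyperfilter_of_finite h1
    filter_upwards [h2] with M hM
    by_contra h3
    exact hM h3
  let P : ∀ (_ : ℕ) (_ : Fin L.length), (List ℕ × Fin (m + 1) × Fin (m + 1)) × Finset ℕ :=
    fun M l => (K M)[l.1]'(by rw [hlen]; exact l.2)
  have hP1 : ∀ M l, P M l ∈ K M := fun M l => List.getElem_mem _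
  have hP2 : ∀ M l, (P M l).1 = L[l.1] := by
    intro M l
    have h1 : ∀ (L' : List (List ℕ × Fin (m + 1) × Fin (m + 1))) (h : L' = L)
        (h' : l.1 < L'.length), L'[l.1] = L[l.1] := by
      rintro L' rfl h'
      rfl
    rw [← h1 _ (hK1 M) (by rw [List.length_map, hlen]; exact l.2), List.getElem_map]
  let Z : Fin L.length → Set ℕ := fun l => {y | ∀ᶠ M in (V : Filter ℕ), y ∈ (P M l).2}
  have hZn : ∀ l y, y ∉ Z l → ∀ᶠ M in (V : Filter ℕ), y ∉ (P M l).2 := by
    intro l y hy
    exact Ultrafilter.eventually_not.2 hy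
  -- the sets are controlled
  have hct : ∀ l, Ct c (L[l.1]).1 univ (Z l) := by
    intro l p hp hpl D hD
    have h1 := h76_ev_list (fun M y => y ∈ (P M l).2) (p.map Prod.fst) (by
      intro y hy
      obtain ⟨z, hz, rfl⟩ := List.mem_map.1 hy
      exact (hp z hz).1)
    have h2 := h76_ev_list (fun M y => y ∈ (P M l).2) (p.map Prod.snd) (by
      intro y hy
      obtain ⟨z, hz, rfl⟩ := List.mem_map.1 hy
      exact (hp z hz).2)
    have h3 := h76_ev_list (fun M y => y < M ∧ y ∉ (P M l).2) D (by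
      intro y hy
      exact (hV y).and (hZn l y (hD y hy).2))
    obtain ⟨M, ⟨h4, h5⟩, h6⟩ := ((h1.and h2).and h3).exists
    have h7 := (hK2 M (P M l) (hP1 M l)).2.1
    rw [hP2] at h7
    exact h7 p (fun z hz => ⟨h4 z.1 (List.mem_map_of_mem hz), h5 z.2 (List.mem_map_of_mem hz)⟩)
      hpl D h6
  have hso : ∀ l, SO c (Z l) (f (L[l.1]).2.1) (f (L[l.1]).2.2) := by
    intro l
    refine ⟨hf2 _ _, fun D hD => ?_⟩
    have h1 := h76_ev_list (fun M y => y ∈ (P M l).2) D fun y hy => hD y hy
    obtain ⟨M, h4⟩ := h1.exists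
    have h7 := (hK2 M (P M l) (hP1 M l)).2.2
    rw [hP2] at h7
    exact h7.2 D h4
  have hfi : ∀ l, Fi n c (Z l) := by
    intro l
    refine (hFCT n c hlb (Z l)ᶜ (Z l)).2 ⟨(L[l.1]).1, fun x x' hxx hx hx' hpl =>
      ⟨hxx, fun D hD => ?_⟩⟩
    have h1 := hct l (x.zip x') (by
      intro z hz
      obtain ⟨i, h2, h3, rfl⟩ := zip_get hz
      exact ⟨hx _ (List.getElem_mem _), hx' _ (List.getElem_mem _)⟩) hpl D fun y hy =>
        ⟨mem_univ y, hD y hy⟩
    refine h1.mono fun z hz => ?_
    simp only [List.mem_append] at hz ⊢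
    tauto
  -- one of the sets is in `U`
  have hex : ∃ l, Z l ∈ U := by
    by_contra hcon
    push Not at hcon
    have huniv : (univ : Set ℕ) ∈ U := by
      rcases hU.ult _ (hfin ∅ finite_empty) with h | h
      · exact absurd finite_empty (hU.fin _ h)
      · rwa [compl_empty] at h
    have h2 : ∀ s : Finset (Fin L.length), (⋂ l ∈ s, (Z l)ᶜ) ∈ U := by
      intro s
      induction s using Finset.induction_on with
      | empty =>
        simp only [Finset.notMem_empty, iInter_of_empty, iInter_univ]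
        exact huniv
      | insert l s _ ih =>
        rw [Finset.set_biInter_insert]
        refine hU.int _ ?_ _ ih
        rcases hU.ult _ (hfi l) with h | h
        · exact absurd h (hcon l)
        · exact h
    refine hU.fin _ (h2 Finset.univ) ((Set.finite_lt_nat N).subset ?_)
    intro y hy
    by_contra hyN
    have h3 : ∀ l, ∀ᶠ M in (V : Filter ℕ), y ∉ (P M l).2 := by
      intro l
      simp only [Finset.mem_univ, iInter_true, mem_iInter] at hy
      exact hZn l y (hy l)
    have h4 := (Filter.eventually_all.2 h3).and (hV y)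
    obtain ⟨M, h5, h6⟩ := h4.exists
    obtain ⟨k, hk, hyk⟩ := hK3 M y (not_lt.1 hyN) h6
    obtain ⟨i, hi, rfl⟩ := List.mem_iff_getElem.1 hk
    exact h5 ⟨i, by rw [← hlen M]; exact hi⟩ hyk
  obtain ⟨l, hl⟩ := hex
  exact ⟨_, _, hL _ (List.getElem_mem _), Z l, hl, hso l⟩

end Pool.Agent.CR
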