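import Pool.Agent.H71.CR.Stmt2

/-! Module TKB: a direction with infinitely many germs gives an infinite inseparable set. -/

set_option autoImplicit false

open Set Pool.Agent.TK Pool.Agent.H71.VK

namespace Pool.Agent.CR

/-- the points reachable from `a` by walks outside `S` -/
private def h76_K (G : SimpleGraph ℕ) (S : Finset ℕ) (a : ℕ) : Set ℕ :=
  {v | ∃ w : G.Walk a v, ∀ u ∈ w.support, u ∉ S}

private lemma h76_k_ext {G : SimpleGraph ℕ} {S : Finset ℕ} {a x z : ℕ} (hx : x ∈ h76_K G S a)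
    (hz : z ∉ S) (h : G.Adj x z) : z ∈ h76_K G S a := by
  obtain ⟨w, hw⟩ := hx
  refine ⟨w.concat h, fun u hu => ?_⟩
  rw [SimpleGraph.Walk.support_concat, List.mem_append,
    List.mem_singleton] at hu
  rcases hu with hu | rfl
  · exact hw u hu
  · exact hz

private lemma h76_nadj {c : Lf} {e : ℕ → ℕ} {a b : ℕ} (hab : a ≠ b) (h : ¬ (Gf c e).Adj a b)
    {l : List ℕ} (ha : a ∈ l) (hb : b ∈ l) : c l = e l.length := by
  by_contra hne
  apply h
  unfold Gf
  rw [SimpleGraph.fromRel_adj]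
  exact ⟨hab, Or.inl ⟨l, hne, ha, hb⟩⟩

private lemma h76_nadj2 {c : Lf} {e : ℕ → ℕ} {s : List (ℕ × ℕ)} {z z' : ℕ × ℕ} (hz : z ∈ s)
    (hz' : z' ∈ s) (h1 : z.1 ≠ z'.1) (h2 : z.2 ≠ z'.2) (h3 : ¬ (Gf c e).Adj z.1 z'.1)
    (h4 : ¬ (Gf c e).Adj z.2 z'.2) : c (s.map Prod.fst) = c (s.map Prod.snd) := by
  rw [h76_nadj h1 h3 (List.mem_map_of_mem hz) (List.mem_map_of_mem hz'),
    h76_nadj h2 h4 (List.mem_map_of_mem hz) (List.mem_map_of_mem hz'),
    List.length_map, List.length_map]

private lemma h76_k_fi (hFCT : T_FCT) {n : Bd} {c : Lf} (hlb : Lb n c) (e : ℕ → ℕ)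
    (S : Finset ℕ) (a : ℕ) : Fi n c (h76_K (Gf c e) S a) := by
  classical
  refine (hFCT n c hlb _ _).2 ⟨S.toList, fun x x' hxx hx hx' hpl => ⟨hxx, fun D hD s hs => ?_⟩⟩
  by_cases h1 : ∃ z' ∈ s, z' ∈ dg D ∧ z'.1 ∉ S
  · obtain ⟨z', hz's, hz'D, hz'S⟩ := h1
    have h2 := mem_dg.1 hz'D
    have h3 : z'.1 ∉ h76_K (Gf c e) S a := hD _ h2.2
    by_cases h4 : ∃ z ∈ s, z ∈ x.zip x'
    · obtain ⟨z, hzs, hzx⟩ := h4
      obtain ⟨i, hi, hi', rfl⟩ := zip_get hzx
      have k1 : x[i] ∈ h76_K (Gf c e) S a := hx _ (List.getElem_mem _)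
      have k2 : x'[i] ∈ h76_K (Gf c e) S a := hx' _ (List.getElem_mem _)
      refine h76_nadj2 (e := e) hzs hz's ?_ ?_ ?_ ?_
      · intro h5
        apply h3
        rw [← h5]
        exact k1
      · intro h5
        apply h3
        rw [h2.1, ← h5]
        exact k2
      · intro h5
        exact h3 (h76_k_ext k1 hz'S h5)
      · intro h5
        rw [← h2.1] at h5
        exact h3 (h76_k_ext k2 hz'S h5)
    · push Not at h4
      refine pl_dg D s fun z hz => ?_
      rcases List.mem_append.1 (hs z hz) with h5 | h5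
      · exact h5
      · exact absurd h5 (h4 z hz)
  · push Not at h1
    refine hpl s fun z hz => ?_
    rcases List.mem_append.1 (hs z hz) with h5 | h5
    · refine List.mem_append_left _ (mem_dg.2 ⟨(mem_dg.1 h5).1, ?_⟩)
      rw [Finset.mem_toList]
      exact h1 z hz h5
    · exact List.mem_append_right _ h5

private lemma h76_reps {β : Type} [Finite β] (k : ℕ) (T : {x : List ℕ // x.length ≤ k} → β) :
    ∃ E : List (List ℕ), ∀ (x : List ℕ) (hx : x.length ≤ k), ∃ e ∈ E, ∃ he : e.length ≤ k,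
      T ⟨x, hx⟩ = T ⟨e, he⟩ := by
  classical
  have : Fintype β := Fintype.ofFinite β
  let r : β → List ℕ := fun b => if h : ∃ x, T x = b then (h.choose : List ℕ) else []
  refine ⟨(Finset.univ : Finset β).toList.map r, fun x hx => ?_⟩
  have h : ∃ y, T y = T ⟨x, hx⟩ := ⟨_, rfl⟩
  have h1 : r (T ⟨x, hx⟩) = (h.choose : List ℕ) := dif_pos h
  refine ⟨r (T ⟨x, hx⟩), List.mem_map_of_mem (by rw [Finset.mem_toList]; exact Finset.mem_univ _),
    ?_⟩
  rw [h1]
  exact ⟨h.choose.2, h.choose_spec.symm⟩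

private lemma h76_word (k : ℕ) (x x' : List ℕ) (hx : x.length ≤ k) (s : List (ℕ × ℕ))
    (hs : ∀ z ∈ s, z ∈ x.zip x') : ∃ w : List (Fin k), w.length = s.length ∧
      s = w.map fun i => (x.getD i.1 0, x'.getD i.1 0) := by
  induction s with
  | nil => exact ⟨[], rfl, rfl⟩
  | cons z s ih =>
    obtain ⟨w, hw, hws⟩ := ih fun y hy => hs y (List.mem_cons_of_mem _ hy)
    obtain ⟨i, hi, hi', hz⟩ := zip_get (hs z List.mem_cons_self)
    refine ⟨⟨i, by omega⟩ :: w, by rw [List.length_cons, List.length_cons, hw], ?_⟩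
    rw [List.map_cons, ← hws, hz]
    simp only
    rw [List.getD_eq_getElem _ _ hi, List.getD_eq_getElem _ _ hi']

open Classical in
/-- TKB: a direction with infinitely many germs gives an infinite inseparable set. -/
theorem pf_TKB (hFCT : T_FCT) (hFIA : T_FIA) : T_TKB := by
  intro n c U e hlb hU hG
  obtain ⟨hcomp, hint, hfin⟩ := hFIA n c hlb
  have hcof : ∀ A : Set ℕ, A.Finite → Aᶜ ∈ U := by
    intro A hA
    rcases hU.ult A (hfin A hA) with h | h
    · exact absurd hA (hU.fin A h)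
    · exact h
  have huniv : (univ : Set ℕ) ∈ U := by
    have := hcof ∅ finite_empty
    rwa [compl_empty] at this
  set Γ : SimpleGraph ℕ := Gf c e with hΓ
  refine ⟨{a | ∀ A ∈ U, ∃ y ∈ A, Γ.Adj a y}, ?_, ?_⟩
  · intro hBf
    apply hG
    set B : Set ℕ := {a | ∀ A ∈ U, ∃ y ∈ A, Γ.Adj a y} with hB
    have hA : ∀ a : ℕ, ∃ A ∈ U, a ∉ B → ∀ y ∈ A, ¬ Γ.Adj a y := by
      intro a
      by_cases ha : a ∈ B
      · exact ⟨univ, huniv, fun h => absurd ha h⟩
      · rw [hB, mem_ofPred_eq] at ha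
        push Not at ha
        obtain ⟨A, hA, hA2⟩ := ha
        exact ⟨A, hA, fun _ => hA2⟩
    choose A hA1 hA2 using hA
    have hBfin : Finite B := hBf
    have hWfin : Finite {w : List (Fin n.2) // w.length ≤ n.2} := by
      have h1 : {w : List (Fin n.2) | w.length ≤ n.2}.Finite := List.finite_length_le (Fin n.2) n.2
      exact h1
    obtain ⟨E, hE⟩ := h76_reps (β := Fin (n.2 + 1) × (Fin n.2 → Option B) ×
      ({w : List (Fin n.2) // w.length ≤ n.2} → Fin n.1)) n.2 (fun x =>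
      (⟨x.1.length, Nat.lt_succ_of_le x.2⟩, fun i => if h : x.1.getD i.1 0 ∈ B then
        some ⟨x.1.getD i.1 0, h⟩ else none, fun w => ⟨c (w.1.map fun i => x.1.getD i.1 0),
        hlb.bd _⟩))
    refine ⟨E, fun x hx => ?_⟩
    obtain ⟨x', hx'E, hx', hT⟩ := hE x hx
    refine ⟨x', hx'E, ?_⟩
    simp only [Prod.mk.injEq, Fin.mk.injEq] at hT
    obtain ⟨hT1, hT2, hT3⟩ := hT
    have hlen : x.length = x'.length := hT1
    -- the pairs
    have hpr : ∀ z ∈ x.zip x', (z.1 ∈ B → z.1 = z.2) ∧ (z.1 ∉ B → z.2 ∉ B) := by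
      intro z hz
      obtain ⟨i, hi, hi', rfl⟩ := zip_get hz
      have h1 := congrFun hT2 ⟨i, by omega⟩
      simp only at h1
      rw [List.getD_eq_getElem _ _ hi, List.getD_eq_getElem _ _ hi'] at h1
      constructor
      · intro h2
        simp only at h2
        rw [dif_pos h2] at h1
        by_cases h3 : x'[i] ∈ B
        · rw [dif_pos h3] at h1
          simp only [Option.some.injEq, Subtype.mk.injEq] at h1
          exact h1
        · rw [dif_neg h3] at h1
          simp at h1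
      · intro h2 h3
        simp only at h2 h3
        rw [dif_neg h2, dif_pos h3] at h1
        simp at h1
    -- the set
    have hW : ∀ l : List ℕ, {y | y ∉ l ∧ ∀ a ∈ l, a ∉ B → ¬ Γ.Adj a y} ⊇
        ⋂ a ∈ l.toFinset, (A a ∩ {a}ᶜ) := by
      intro l y hy
      simp only [mem_iInter, List.mem_toFinset] at hy
      refine ⟨fun h => (hy y h).2 rfl, fun a ha haB => hA2 a haB y (hy a ha).1⟩
    have hI : ∀ s : Finset ℕ, (⋂ a ∈ s, (A a ∩ {a}ᶜ)) ∈ U := by
      intro s
      induction s using Finset.induction_on with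
      | empty =>
        simp only [Finset.notMem_empty, iInter_of_empty, iInter_univ]
        exact huniv
      | insert a s _ ih =>
        rw [Finset.set_biInter_insert]
        exact hU.int _ (hU.int _ (hA1 a) _ (hcof {a} (finite_singleton a))) _ ih
    refine ⟨⋂ a ∈ (x ++ x').toFinset, (A a ∩ {a}ᶜ), hI _, hlen, fun D hD s hs => ?_⟩
    have hD' : ∀ y ∈ D, (y ∉ x ++ x') ∧ ∀ a ∈ x ++ x', a ∉ B → ¬ Γ.Adj a y :=
      fun y hy => hW (x ++ x') (hD y hy)
    by_cases hsl : n.2 < s.length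
    · rw [hlb.ar _ (by rw [List.length_map]; exact hsl),
        hlb.ar _ (by rw [List.length_map]; exact hsl)]
    by_cases h1 : ∃ z' ∈ s, z' ∈ dg D
    · obtain ⟨z', hz's, hz'D⟩ := h1
      have h2 := mem_dg.1 hz'D
      have h3 := hD' _ h2.2
      by_cases h4 : ∃ z ∈ s, z ∈ x.zip x' ∧ z.1 ∉ B
      · obtain ⟨z, hzs, hzx, hzB⟩ := h4
        have h5 := (hpr z hzx).2 hzB
        obtain ⟨i, hi, hi', rfl⟩ := zip_get hzx
        have k1 : x[i] ∈ x ++ x' := List.mem_append_left _ (List.getElem_mem _)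
        have k2 : x'[i] ∈ x ++ x' := List.mem_append_right _ (List.getElem_mem _)
        refine h76_nadj2 (e := e) hzs hz's ?_ ?_ ?_ ?_
        · intro h6
          apply h3.1
          rw [← h6]
          exact k1
        · intro h6
          apply h3.1
          rw [h2.1, ← h6]
          exact k2
        · exact h3.2 _ k1 hzB
        · rw [← h2.1]
          exact h3.2 _ k2 h5
      · push Not at h4
        have h5 : s.map Prod.fst = s.map Prod.snd := by
          refine List.map_congr_left fun z hz => ?_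
          rcases List.mem_append.1 (hs z hz) with h6 | h6
          · exact (mem_dg.1 h6).1
          · exact (hpr z h6).1 (h4 z hz h6)
        rw [h5]
    · push Not at h1
      obtain ⟨w, hw1, hw2⟩ := h76_word n.2 x x' hx s fun z hz => by
        rcases List.mem_append.1 (hs z hz) with h6 | h6
        · exact absurd h6 (h1 z hz)
        · exact h6
      have h2 := congrFun hT3 ⟨w, by rw [hw1]; exact not_lt.1 hsl⟩
      have h3 := congrArg Fin.val h2
      simp only at h3
      rw [hw2, List.map_map, List.map_map]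
      exact h3
  · have hK : ∀ a ∈ {a | ∀ A ∈ U, ∃ y ∈ A, Γ.Adj a y}, ∀ S : Finset ℕ, a ∉ S →
        h76_K Γ S a ∈ U := by
      intro a ha S haS
      rcases hU.ult _ (h76_k_fi hFCT hlb e S a) with h | h
      · exact h
      · exfalso
        obtain ⟨y, hy, hay⟩ := ha _ (hU.int _ h _ (hcof (S : Set ℕ) S.finite_toSet))
        refine hy.1 (h76_k_ext ⟨SimpleGraph.Walk.nil, fun u hu => ?_⟩ (fun h2 => hy.2 h2) hay)
        rw [SimpleGraph.Walk.support_nil, List.mem_singleton] at hu
        rw [hu]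
        exact haS
    intro a ha b hb' _ S haS hbS
    have h1 := hU.int _ (hK a ha S haS) _ (hK b hb' S hbS)
    obtain ⟨v, ⟨w1, hw1⟩, ⟨w2, hw2⟩⟩ := (hU.fin _ h1).nonempty
    refine ⟨w1.append w2.reverse, fun u hu => ?_⟩
    rw [SimpleGraph.Walk.mem_support_append_iff, SimpleGraph.Walk.support_reverse,
      List.mem_reverse] at hu
    rcases hu with hu | hu
    · exact hw1 u hu
    · exact hw2 u hu

end Pool.Agent.CR
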